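import Mathlib

set_option autoImplicit false
open Filter MeasureTheory ProbabilityTheory Topology
open scoped ENNReal

namespace Pool.Agent.H.MP_c7dc48_pr

abbrev Y := ℕ → Bool

noncomputable def coin : Measure Bool := (2 : ℝ≥0∞)⁻¹ • (Measure.dirac false + Measure.dirac true)
instance : IsProbabilityMeasure coin := ⟨by
  simp [coin, ENNReal.inv_two_add_inv_two]⟩
noncomputable def mu : Measure Y := Measure.infinitePi fun _ => coin
instance : IsProbabilityMeasure mu := by unfold mu; infer_instance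

def ch (b : Bool) (x : Y) : Y := fun j => x (2 * j + b.toNat)
def tl (i : Y) : Y := fun j => i (j + 1)
def cs (b : Bool) (i : Y) : Y := fun j => Nat.casesOn j b i
def th (w : Y × Y) : Y × Y := (ch (w.2 0) w.1, tl w.2)
def Pr (w : Y × Y) : ℕ → Y := fun n => (th^[n] w).1

theorem m_ch (b : Bool) : Measurable (ch b) := by unfold ch; fun_prop
theorem m_tl : Measurable tl := by unfold tl; fun_prop
theorem m_cs : Measurable fun p : Bool × Y => cs p.1 p.2 := by
  refine measurable_pi_iff.mpr fun j => ?_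
  cases j
  · exact measurable_fst
  · exact (measurable_pi_apply _).comp measurable_snd
theorem m_th : Measurable th := by
  refine Measurable.prodMk ?_ (m_tl.comp measurable_snd)
  have : Measurable fun p : Y × Bool => ch p.2 p.1 :=
    measurable_from_prod_countable_left fun b => m_ch b
  exact this.comp (measurable_fst.prodMk ((measurable_pi_apply 0).comp measurable_snd))
theorem m_Pr : Measurable Pr := measurable_pi_iff.mpr fun n => (m_th.iterate n).fst

theorem indp {α β : Type} [MeasurableSpace α] [MeasurableSpace β] {S T : Set ℕ} (h : Disjoint S T)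
    {f : Y → α} {g : Y → β}
    (hf : Measurable[⨆ i ∈ S, MeasurableSpace.comap (fun θ : Y => θ i) inferInstance] f)
    (hg : Measurable[⨆ i ∈ T, MeasurableSpace.comap (fun θ : Y => θ i) inferInstance] g) :
    IndepFun f g mu :=
  indep_of_indep_of_le (indep_iSup_of_disjoint (fun i => (measurable_pi_apply i).comap_le)
    (iIndepFun_infinitePi (P := fun _ : ℕ => coin) (X := fun _ x => x) fun _ => measurable_id).iIndep h)
    hf.comap_le hg.comap_le

theorem gm {S : Set ℕ} {i : ℕ} (h : i ∈ S) :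
    Measurable[⨆ i ∈ S, MeasurableSpace.comap (fun θ : Y => θ i) inferInstance] fun θ : Y => θ i :=
  measurable_iff_comap_le.mpr (le_iSup₂ (f := fun i (_ : i ∈ S) =>
    MeasurableSpace.comap (fun θ : Y => θ i) inferInstance) i h)

theorem gp {S : Set ℕ} {f : ℕ → ℕ} (h : ∀ j, f j ∈ S) :
    Measurable[⨆ i ∈ S, MeasurableSpace.comap (fun θ : Y => θ i) inferInstance]
      fun (θ : Y) j => θ (f j) :=
  @measurable_pi_lambda _ _ _ (_) _ _ fun j => gm (h j)

theorem ch_map (b : Bool) : mu.map (ch b) = mu :=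
  Measure.map_infinitePi_infinitePi_of_inj (P := fun _ : ℕ => coin) (f := fun j => 2 * j + b.toNat)
    fun _ _ h => by simpa using h

theorem tl_map : mu.map tl = mu :=
  Measure.map_infinitePi_infinitePi_of_inj (P := fun _ : ℕ => coin) (f := fun j => j + 1)
    fun _ _ h => by simpa using h

theorem ch_ind : IndepFun (ch false) (ch true) mu := by
  refine indp (S := {n | Even n}) (T := {n | Odd n})
    (Set.disjoint_left.mpr fun n h1 h2 => (Nat.not_even_iff_odd.mpr h2) h1) ?_ ?_
  · exact gp (f := fun j => 2 * j + false.toNat) (by simp)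
  · exact gp (f := fun j => 2 * j + true.toNat) (by simp)

theorem hd_map : mu.map (fun i => (i 0, tl i)) = coin.prod mu := by
  have : IndepFun (fun i : Y => i 0) tl mu := by
    refine indp (S := {0}) (T := {0}ᶜ) disjoint_compl_right (gm rfl) ?_
    exact gp (f := fun j => j + 1) (by simp)
  rw [this.map_prod_eq_prod_map_map (measurable_pi_apply 0).aemeasurable m_tl.aemeasurable, tl_map]
  congr 1
  exact Measure.infinitePi_map_eval (fun _ : ℕ => coin) 0

theorem intg {α : Type} [MeasurableSpace α] (ν : Measure α) [IsProbabilityMeasure ν] {h : α → ℝ}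
    (hm : Measurable h) (hb : ∀ x, |h x| ≤ 1) : Integrable h ν :=
  Integrable.of_bound hm.aestronglyMeasurable 1 (Eventually.of_forall hb)

theorem ibd {α : Type} [MeasurableSpace α] (ν : Measure α) [IsProbabilityMeasure ν] {h : α → ℝ}
    (hb : ∀ x, |h x| ≤ 1) : |∫ x, h x ∂ν| ≤ 1 := by
  simpa using norm_integral_le_of_norm_le_const (μ := ν) (f := h) (C := 1) (Eventually.of_forall hb)

theorem split {h : Y → ℝ} (hm : Measurable h) (hb : ∀ x, |h x| ≤ 1) :
    ∫ i, h i ∂mu = (∫ i, h (cs false i) ∂mu + ∫ i, h (cs true i) ∂mu) / 2 := by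
  have h1 : Measurable fun p : Bool × Y => h (cs p.1 p.2) := hm.comp m_cs
  have h2 : ∫ i, h i ∂mu = ∫ p, h (cs p.1 p.2) ∂(coin.prod mu) := by
    rw [← hd_map, integral_map ((measurable_pi_apply 0).prodMk m_tl).aemeasurable
      h1.aestronglyMeasurable]
    congr! 3 with i
    funext j
    cases j <;> rfl
  rw [h2, integral_prod _ (intg _ h1 fun p => hb _), coin, integral_smul_measure,
    integral_add_measure Integrable.of_finite Integrable.of_finite]
  simp
  ring

theorem int_ch (b : Bool) {h : Y → ℝ} (hm : Measurable h) : ∫ x, h (ch b x) ∂mu = ∫ x, h x ∂mu := by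
  conv_rhs => rw [← ch_map b]
  rw [integral_map (m_ch b).aemeasurable hm.aestronglyMeasurable]

theorem int_av {h : Y → ℝ} (hm : Measurable h) (hb : ∀ x, |h x| ≤ 1) :
    ∫ x, (h (ch false x) + h (ch true x)) / 2 ∂mu = ∫ x, h x ∂mu := by
  have i1 : ∀ b, Integrable (fun y => h (ch b y)) mu := fun b =>
    intg _ (hm.comp (m_ch b)) fun _ => hb _
  rw [integral_div, integral_add (i1 _) (i1 _), int_ch _ hm, int_ch _ hm]
  ring

theorem th_cs (n : ℕ) (x i : Y) (b : Bool) : th^[n + 1] (x, cs b i) = th^[n] (ch b x, i) := rfl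

noncomputable def G (g : Y × Y → ℝ) (k : ℕ) (y : Y) : ℝ := ∫ i, g (th^[k] (y, i)) ∂mu

section
variable {g : Y × Y → ℝ} (hm : Measurable g) (hb : ∀ x, |g x| ≤ 1)
include hm hb

theorem G_m (k : ℕ) : Measurable (G g k) :=
  ((hm.comp (m_th.iterate k)).stronglyMeasurable.integral_prod_right' (ν := mu)).measurable

theorem G_b (k : ℕ) (y : Y) : |G g k y| ≤ 1 := ibd _ fun _ => hb _

theorem G_succ (k : ℕ) (y : Y) : G g (k + 1) y = (G g k (ch false y) + G g k (ch true y)) / 2 :=
  split (h := fun i => g (th^[k + 1] (y, i)))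
    (hm.comp ((m_th.iterate _).comp measurable_prodMk_left)) fun _ => hb _

theorem G_int (k : ℕ) : ∫ y, G g k y ∂mu = ∫ w, g w ∂(mu.prod mu) := by
  induction k with
  | zero => exact (integral_prod _ (intg _ hm hb)).symm
  | succ k ih =>
    simp only [G_succ hm hb]
    rw [int_av (G_m hm hb k) (G_b hm hb k), ih]

theorem th_int (k : ℕ) : ∫ w, g (th^[k] w) ∂(mu.prod mu) = ∫ w, g w ∂(mu.prod mu) := by
  rw [← G_int hm hb k]
  exact integral_prod _ (intg _ (hm.comp (m_th.iterate k)) fun _ => hb _)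

theorem G_sq (h0 : ∫ w, g w ∂(mu.prod mu) = 0) (k : ℕ) : ∫ y, G g k y ^ 2 ∂mu ≤ (1 / 2) ^ k := by
  have sq : ∀ k y, |G g k y ^ 2| ≤ 1 := fun k y => by
    rw [abs_pow]; exact pow_le_one₀ (abs_nonneg _) (G_b hm hb k y)
  induction k with
  | zero => simpa using (le_abs_self _).trans (ibd mu (sq 0))
  | succ k ih =>
    have e : ∀ y, G g (k + 1) y ^ 2 = (G g k (ch false y) ^ 2 + G g k (ch true y) ^ 2) / 2 / 2 +
        G g k (ch false y) * G g k (ch true y) / 2 := fun y => by rw [G_succ hm hb]; ring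
    have m1 : ∀ b, Measurable fun y => G g k (ch b y) := fun b => (G_m hm hb k).comp (m_ch b)
    have i1 : ∀ b, Integrable (fun y => G g k (ch b y) ^ 2) mu := fun b =>
      intg _ ((m1 b).pow_const 2) fun _ => sq _ _
    have i2 : Integrable (fun y => G g k (ch false y) * G g k (ch true y)) mu :=
      intg _ ((m1 _).mul (m1 _)) fun _ => by
        rw [abs_mul]; exact mul_le_one₀ (G_b hm hb _ _) (abs_nonneg _) (G_b hm hb _ _)
    have i3 : ∫ y, G g k (ch false y) * G g k (ch true y) ∂mu = 0 := by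
      have := (ch_ind.comp (G_m hm hb k) (G_m hm hb k)).integral_fun_mul_eq_mul_integral
        (m1 _).aestronglyMeasurable (m1 _).aestronglyMeasurable
      simp only [Function.comp] at this
      rw [this, int_ch _ (G_m hm hb k), G_int hm hb, h0, zero_mul]
    simp only [e]
    have i4 : Integrable (fun y => (G g k (ch false y) ^ 2 + G g k (ch true y) ^ 2) / 2 / 2) mu :=
      (((i1 _).add (i1 _)).div_const 2).div_const 2
    rw [integral_add i4 (i2.div_const 2), integral_div, integral_div _ (fun y => _ * _), i3,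
      int_av ((G_m hm hb k).pow_const 2) (sq k), pow_succ]
    linarith

end

noncomputable def W (u : Y → ℝ) : ℕ → Y → ℝ
  | 0, x => |u x|
  | l + 1, x => (W u l (ch false x) + W u l (ch true x)) / 2

theorem W_prop {u : Y → ℝ} (hm : Measurable u) (hb : ∀ x, |u x| ≤ 1) (l : ℕ) :
    Measurable (W u l) ∧ (∀ x, |W u l x| ≤ 1) ∧ ∫ x, W u l x ∂mu = ∫ x, |u x| ∂mu := by
  induction l with
  | zero => exact ⟨hm.abs, fun x => by simpa [W] using hb x, rfl⟩
  | succ l ih =>
    obtain ⟨h1, h2, h3⟩ := ih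
    refine ⟨((h1.comp (m_ch _)).add (h1.comp (m_ch _))).div_const 2, fun x => ?_, ?_⟩
    · have := abs_le.mp (h2 (ch false x))
      have := abs_le.mp (h2 (ch true x))
      rw [W, abs_le]; constructor <;> linarith
    · simp only [W]
      rw [int_av h1 h2, h3]

theorem W_le {g : Y × Y → ℝ} (hm : Measurable g) (hb : ∀ x, |g x| ≤ 1) (k l : ℕ) :
    ∀ (x : Y) (a : Y → ℝ), Measurable a → (∀ i, |a i| ≤ 1) →
      (∀ i i', (∀ j < l, i j = i' j) → a i = a i') →
      |∫ i, a i * g (th^[k + l] (x, i)) ∂mu| ≤ W (G g k) l x := by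
  induction l with
  | zero =>
    intro x a _ h2 h3
    have : ∀ i, a i = a x := fun i => h3 _ _ (by simp)
    simp only [this]
    rw [integral_const_mul, abs_mul]
    exact mul_le_of_le_one_left (abs_nonneg _) (h2 x)
  | succ l ih =>
    intro x a h1 h2 h3
    rw [split (h := fun i => a i * g (th^[k + (l + 1)] (x, i)))
      (h1.mul (hm.comp ((m_th.iterate _).comp measurable_prodMk_left))) fun i => by
        rw [abs_mul]; exact mul_le_one₀ (h2 _) (abs_nonneg _) (hb _)]
    have := fun b => abs_le.mp (ih (ch b x) (fun i => a (cs b i))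
      (h1.comp (m_cs.comp measurable_prodMk_left)) (fun _ => h2 _) fun i i' h => h3 _ _ fun j hj => by
        cases j
        · rfl
        · exact h _ (by omega))
    have h4 := this false
    have h5 := this true
    simp only [← add_assoc, th_cs, W, abs_le]
    constructor <;> linarith

theorem mix {g a : Y × Y → ℝ} (hm : Measurable g) (hb : ∀ x, |g x| ≤ 1)
    (h0 : ∫ w, g w ∂(mu.prod mu) = 0) (k l : ℕ) (h1 : Measurable a) (h2 : ∀ w, |a w| ≤ 1)
    (h3 : ∀ x i i', (∀ j < l, i j = i' j) → a (x, i) = a (x, i')) {ε : ℝ} (hε : 0 < ε)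
    (hk : (1 / 2) ^ k ≤ ε ^ 2) : |∫ w, a w * g (th^[k + l] w) ∂(mu.prod mu)| ≤ ε := by
  obtain ⟨w1, w2, w3⟩ := W_prop (G_m hm hb k) (G_b hm hb k) l
  have i0 : Integrable (fun w => a w * g (th^[k + l] w)) (mu.prod mu) :=
    intg _ (h1.mul (hm.comp (m_th.iterate _))) fun i => by
        rw [abs_mul]; exact mul_le_one₀ (h2 _) (abs_nonneg _) (hb _)
  rw [integral_prod _ i0]
  have := norm_integral_le_of_norm_le (f := fun x => ∫ i, a (x, i) * g (th^[k + l] (x, i)) ∂mu)
    (intg mu w1 w2) (Eventually.of_forall fun x =>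
    W_le hm hb k l x (fun i => a (x, i)) (h1.comp measurable_prodMk_left) (fun _ => h2 _) (h3 x))
  refine le_trans this ?_
  have i1 : Integrable (fun y => G g k y ^ 2) mu := intg _ ((G_m hm hb k).pow_const 2) fun y => by
    rw [abs_pow]; exact pow_le_one₀ (abs_nonneg _) (G_b hm hb k y)
  rw [w3]
  refine (integral_mono (intg _ (G_m hm hb k).abs fun y => by simpa using G_b hm hb k y)
    ((integrable_const (ε / 2)).add (i1.div_const (2 * ε))) fun y => ?_).trans ?_
  · simp only [Pi.add_apply]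
    rw [← sq_abs, div_add_div _ _ (by positivity) (by positivity), le_div_iff₀ (by positivity)]
    nlinarith [sq_nonneg (|G g k y| - ε)]
  · have := G_sq hm hb h0 k
    rw [integral_add' (integrable_const _) (i1.div_const _), integral_div, integral_div]
    simp only [integral_const, probReal_univ, one_smul]
    have : (∫ y, G g k y ^ 2 ∂mu) / (2 * ε) ≤ ε / 2 := by
      rw [div_le_iff₀ (by positivity)]; nlinarith
    linarith

noncomputable def PP : Measure (ℕ → Y) := (mu.prod mu).map Pr
instance : IsProbabilityMeasure PP := Measure.isProbabilityMeasure_map m_Pr.aemeasurable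

theorem ind_b {α : Type} (S : Set α) (x : α) : 0 ≤ S.indicator (1 : α → ℝ) x ∧
    S.indicator (1 : α → ℝ) x ≤ 1 := by
  by_cases h : x ∈ S <;> simp [h]

theorem ind_a {α : Type} (S : Set α) (x : α) : |S.indicator (1 : α → ℝ) x| ≤ 1 :=
  abs_le.mpr ⟨by linarith [(ind_b S x).1], (ind_b S x).2⟩

theorem th_real (k : ℕ) {S : Set (Y × Y)} (hS : MeasurableSet S) :
    (mu.prod mu).real (th^[k] ⁻¹' S) = (mu.prod mu).real S := by
  rw [← integral_indicator_one hS, ← th_int (measurable_one.indicator hS) (ind_a S) k,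
    ← integral_indicator_one (m_th.iterate k hS)]
  rfl

theorem th_map : (mu.prod mu).map th = mu.prod mu := by
  ext S hS
  rw [Measure.map_apply m_th hS]
  exact (ENNReal.toReal_eq_toReal_iff' (measure_ne_top _ _) (measure_ne_top _ _)).mp (th_real 1 hS)

theorem stat : PP.map (fun (ω : ℕ → Y) (n : ℕ) => ω (n + 1)) = PP := by
  rw [PP, Measure.map_map (by fun_prop) m_Pr]
  conv_rhs => rw [← th_map, Measure.map_map m_Pr m_th]
  rfl

theorem marg : mu = PP.map (fun ω => ω 0) := by
  rw [PP, Measure.map_map (by fun_prop) m_Pr]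
  exact (Measure.map_fst_prod.trans (by simp)).symm

theorem dep (n : ℕ) : ∀ x i i' : Y, (∀ j < n, i j = i' j) → (th^[n] (x, i)).1 = (th^[n] (x, i')).1 := by
  induction n with
  | zero => intros; rfl
  | succ n ih =>
    intro x i i' h
    simp only [Function.iterate_succ_apply, th]
    rw [h 0 (by omega)]
    exact ih _ _ _ fun j hj => h _ (by omega)

theorem alpha (ε : ℝ) (hε : 0 < ε) : ∃ K : ℕ, ∀ k : ℕ, K ≤ k → ∀ l : ℕ, ∀ A S : Set (ℕ → Y),
    MeasurableSet[⨆ (i : ℕ) (_ : i ≤ l), MeasurableSpace.comap (fun ω : ℕ → Y => ω i) inferInstance] A →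
    MeasurableSet[⨆ (i : ℕ) (_ : l + k ≤ i),
      MeasurableSpace.comap (fun ω : ℕ → Y => ω i) inferInstance] S →
    |PP.real (A ∩ S) - PP.real A * PP.real S| ≤ ε := by
  obtain ⟨K, hK⟩ := exists_pow_lt_of_lt_one (pow_pos hε 2) (by norm_num : (1 / 2 : ℝ) < 1)
  refine ⟨K, fun k hk l A S hA hS => ?_⟩
  have hA1 : MeasurableSet A := (iSup₂_le fun i _ => (measurable_pi_apply i).comap_le :
    _ ≤ MeasurableSpace.pi) _ hA
  have hS1 : MeasurableSet S := (iSup₂_le fun i _ => (measurable_pi_apply i).comap_le :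
    _ ≤ MeasurableSpace.pi) _ hS
  obtain ⟨t, -, ht⟩ : MeasurableSet[MeasurableSpace.comap
      (fun (ω : ℕ → Y) (i : Set.Iic l) => ω i) ⊤] A := by
    refine MeasurableSpace.le_def.mp (iSup₂_le fun i hi => ?_) _ hA
    rintro _ ⟨s, -, rfl⟩
    exact ⟨{v | v ⟨i, hi⟩ ∈ s}, trivial, rfl⟩
  obtain ⟨S0, hS0, hs⟩ : MeasurableSet[MeasurableSpace.comap
      (fun (ω : ℕ → Y) (i : ℕ) => ω (i + (k + l))) MeasurableSpace.pi] S := by
    refine MeasurableSpace.le_def.mp (iSup₂_le fun i hi => ?_) _ hS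
    rintro _ ⟨s, h, rfl⟩
    refine ⟨{v | v (i - (k + l)) ∈ s}, measurable_pi_apply _ h, ?_⟩
    ext ω
    simp [show i - (k + l) + (k + l) = i by omega]
  have e : Pr ⁻¹' S = th^[k + l] ⁻¹' (Pr ⁻¹' S0) := by
    ext w
    simp only [← hs, Set.mem_preimage]
    congr! 1
    funext n
    simp only [Pr, Function.iterate_add_apply]
  have c0 : 0 ≤ (mu.prod mu).real (Pr ⁻¹' S0) := measureReal_nonneg
  have c1 : (mu.prod mu).real (Pr ⁻¹' S0) ≤ 1 := measureReal_le_one
  have := mix (g := fun w => (Pr ⁻¹' S0).indicator 1 w - (mu.prod mu).real (Pr ⁻¹' S0))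
    (a := (Pr ⁻¹' A).indicator 1) ((measurable_one.indicator (m_Pr hS0)).sub_const _)
    (fun w => abs_le.mpr ⟨by linarith [(ind_b (Pr ⁻¹' S0) w).1], by linarith [(ind_b (Pr ⁻¹' S0) w).2]⟩)
    (by
      rw [integral_sub (intg _ (measurable_one.indicator (m_Pr hS0)) (ind_a _)) (integrable_const _),
        integral_indicator_one (m_Pr hS0)]
      simp) k l (measurable_one.indicator (m_Pr hA1)) (ind_a _)
    (fun x i i' h => by
      have : (x, i) ∈ Pr ⁻¹' A ↔ (x, i') ∈ Pr ⁻¹' A := by
        simp only [← ht, Set.mem_preimage]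
        congr! 1
        funext n
        exact dep n x i i' fun j hj => h j (hj.trans_le n.2)
      classical
      simp only [Set.indicator_apply, this, Pi.one_apply]) hε
    ((pow_le_pow_of_le_one (by norm_num) (by norm_num) hk).trans hK.le)
  convert this using 2
  have e2 : ∀ w, (Pr ⁻¹' A).indicator (1 : Y × Y → ℝ) w * ((Pr ⁻¹' S0).indicator 1 (th^[k + l] w) -
      (mu.prod mu).real (Pr ⁻¹' S0)) = (Pr ⁻¹' (A ∩ S)).indicator 1 w -
      (Pr ⁻¹' A).indicator 1 w * (mu.prod mu).real (Pr ⁻¹' S0) := fun w => by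
    rw [Set.preimage_inter, e, Set.inter_indicator_one, mul_sub]
    rfl
  simp only [e2]
  rw [integral_sub (intg _ (measurable_one.indicator (m_Pr (hA1.inter hS1))) (ind_a _))
    ((intg _ (measurable_one.indicator (m_Pr hA1)) (ind_a _)).mul_const _), integral_mul_const,
    integral_indicator_one (m_Pr hA1), integral_indicator_one (m_Pr (hA1.inter hS1)), PP,
    map_measureReal_apply m_Pr hA1, map_measureReal_apply m_Pr hS1,
    map_measureReal_apply m_Pr (hA1.inter hS1), e, th_real _ (m_Pr hS0)]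

def ds (y : Y) (l : List Bool) : Y := l.foldl (fun x b => ch b x) y

theorem m_ds (l : List Bool) : Measurable fun y => ds y l := by
  induction l with
  | nil => exact measurable_id
  | cons b l ih => exact ih.comp (m_ch b)

theorem ds_mem (n : ℕ) : ∀ w : Y × Y, (th^[n] w).1 ∈ Set.range (ds w.1) := by
  induction n with
  | zero => exact fun w => ⟨[], rfl⟩
  | succ n ih =>
    intro w
    obtain ⟨l, hl⟩ := ih (th w)
    exact ⟨w.2 0 :: l, hl⟩

theorem atom (x : Y) : mu {x} = 0 := by
  have h : ∀ n : ℕ, mu {x} ≤ (2⁻¹) ^ n := fun n => by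
    refine (measure_mono (t := Set.pi (Finset.range n) fun j => {x j}) (by simp)).trans ?_
    rw [mu, Measure.infinitePi_pi _ fun _ _ => measurableSet_singleton _]
    have : ∀ b, coin {b} = 2⁻¹ := fun b => by cases b <;> simp [coin]
    simp [this]
  exact le_antisymm (ge_of_tendsto' (ENNReal.tendsto_pow_atTop_nhds_zero_of_lt_one (by simp)) h) bot_le

instance : NullSingletonClass mu := ⟨atom⟩

def FF : Set (Y → ℝ) := {f | ∃ S : Set Y, S.Countable ∧
  (∀ y ∈ S, ∀ z ∈ S, z ∈ Set.range (ds y) ∨ y ∈ Set.range (ds z)) ∧ f = S.indicator 1}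

theorem FF_inf : FF.Infinite := by
  refine Set.infinite_of_injective_forall_mem (f := fun y : Y => ({y} : Set Y).indicator 1)
    (fun y z h => ?_) fun y => ⟨{y}, Set.countable_singleton _, ?_, rfl⟩
  · by_contra h1
    simpa [h1] using congrFun h y
  · rintro _ rfl _ rfl
    exact .inl ⟨[], rfl⟩

theorem FF_int {f : Y → ℝ} (h : f ∈ FF) : ∫ y, f y ∂mu = 0 := by
  obtain ⟨S, h1, -, rfl⟩ := h
  rw [integral_indicator_one h1.measurableSet, measureReal_def, h1.measure_zero]
  rfl

theorem pair_null : mu.prod mu {p | p.2 ∈ Set.range (ds p.1)} = 0 := by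
  have : MeasurableSet {p : Y × Y | p.2 ∈ Set.range (ds p.1)} := by
    simp only [Set.mem_range, Set.ofPred_exists]
    exact MeasurableSet.iUnion fun l => measurableSet_eq_fun ((m_ds l).comp measurable_fst)
      measurable_snd
  rw [Measure.measure_prod_null this]
  exact Eventually.of_forall fun y => (Set.countable_range (ds y)).measure_zero mu

theorem iid (ε : ℝ) (hε : 0 < ε) : Tendsto (fun m : ℕ => Measure.pi (fun _ : Fin m => mu)
    {x : Fin m → Y | ∃ f ∈ FF, ε < |(1 / (m : ℝ)) * ∑ i : Fin m, f (x i) - ∫ y, f y ∂mu|})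
    atTop (𝓝 0) := by
  refine tendsto_const_nhds.congr' ?_
  filter_upwards [(tendsto_one_div_atTop_nhds_zero_nat (𝕜 := ℝ)).eventually (ge_mem_nhds hε)] with m hm
  symm
  refine measure_mono_null (t := ⋃ (i : Fin m) (j : Fin m) (_ : i ≠ j),
    (fun x : Fin m → Y => (x i, x j)) ⁻¹' {p | p.2 ∈ Set.range (ds p.1)}) ?_ ?_
  · rintro x ⟨f, hf, h⟩
    rw [FF_int hf] at h
    obtain ⟨S, -, h2, rfl⟩ := hf
    by_contra hc
    simp only [Set.mem_iUnion, not_exists, Set.mem_preimage, Set.mem_ofPred_eq] at hc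
    have h3 : ∑ i : Fin m, S.indicator (1 : Y → ℝ) (x i) ≤ 1 := by
      classical
      simp only [Set.indicator, Pi.one_apply, Finset.sum_boole]
      norm_cast
      refine Finset.card_le_one.mpr fun i hi j hj => ?_
      by_contra h4
      rcases h2 _ (Finset.mem_filter.mp hi).2 _ (Finset.mem_filter.mp hj).2 with h5 | h5
      · exact hc i j h4 h5
      · exact hc j i (Ne.symm h4) h5
    rw [sub_zero, abs_of_nonneg (mul_nonneg (by positivity)
      (Finset.sum_nonneg fun i _ => (ind_b S _).1))] at h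
    have : (0 : ℝ) ≤ 1 / m := by positivity
    nlinarith
  · refine measure_iUnion_null fun i => measure_iUnion_null fun j => measure_iUnion_null fun h => ?_
    rw [← Measure.infinitePi_eq_pi]
    refine le_antisymm ((Measure.le_map_apply (by fun_prop) _).trans ?_) bot_le
    rw [Measure.infinitePi_map_eval_prod h, pair_null]

theorem bad (m : ℕ) (hm : 1 ≤ m) : 1 ≤ PP {ω : ℕ → Y | ∃ f ∈ FF,
    1 / 2 < |(1 / (m : ℝ)) * ∑ i ∈ Finset.range m, f (ω i) - ∫ y, f y ∂mu|} := by
  refine le_trans ?_ (Measure.le_map_apply m_Pr.aemeasurable _)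
  rw [Set.eq_univ_of_forall (s := Pr ⁻¹' _) fun w => ?_, measure_univ]
  have hf : (Set.range (Pr w)).indicator 1 ∈ FF := by
    refine ⟨_, Set.countable_range _, ?_, rfl⟩
    have : ∀ a b, a ≤ b → Pr w b ∈ Set.range (ds (Pr w a)) := fun a b h => by
      obtain ⟨c, rfl⟩ := Nat.exists_eq_add_of_le' h
      simpa only [Pr, Function.iterate_add_apply] using ds_mem c (th^[a] w)
    rintro _ ⟨a, rfl⟩ _ ⟨b, rfl⟩
    exact (le_total a b).imp (this a b) (this b a)
  refine ⟨_, hf, ?_⟩
  rw [FF_int hf]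
  have : (m : ℝ) ≠ 0 := by positivity
  simp [this]
  norm_num

end Pool.Agent.H.MP_c7dc48_pr
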